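import Pool.Agent.T6.H15.AJ.Main

/-!
# Abel–Jacobi maps on algebraically trivial cycles, and products of cycles

Let `𝒱` be a class of smooth proper (e.g. projective) varieties over a field `k` which is closed
under products, with Chow groups `C` (rational coefficients), a Weil cohomology theory `W` and
Abel–Jacobi maps `A`. If `k` is a number field, or any subfield of the complex numbers, then the
Abel–Jacobi maps `CH^m_hom(X)_ℚ → J^(2m-1)(X_ℂ)_ℚ` have the properties which are required in
`AJTheory` (`Pool/Agent/T6/H15/AJ/Defs.lean`).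

(1) An algebraically trivial class in `CH^m(X)` is in the kernel of the Abel–Jacobi map if and only
if it is a sum of classes `γ_* y`, where `E` is a curve, `y` in `CH^1(E)` and also `γ` in
`CH^m(E × X)` are homologically trivial.

(2) For fixed `X` and `m` the Abel–Jacobi map is injective on `CH^m_alg(X)` if and only if the
homologically trivial correspondences in `CH^m(E × X)`, `E` a curve, kill the classes of degree zero
on `E`.

(3) The following are equivalent (each statement is for all `X` in `𝒱`):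
* the Abel–Jacobi maps are injective on `CH^m_alg(X)`, for all `m`;
* they are injective on `CH^m_alg(X)` if `dim X = 2m - 1`;
* `y × z = 0` for `y` in `CH^1(E)` of degree zero, `E` a curve, and `z` in `CH^m_hom(X)`;
* `x × z = 0` for `x` in `CH^n_alg(Y)` and `z` in `CH^m_hom(X)`;
* `x z = 0` for `x` in `CH^n_alg(X)` and `z` in `CH^m_hom(X)`;
* `D z = 0` for `D` in `CH^1_alg(X)` and `z` in `CH^m_hom(X)`, `dim X = 2m + 1`;
* homologically trivial correspondences kill the algebraically trivial cycles;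
* correspondences which act as zero on `H^(2n-1)(Y)` kill `CH^n_alg(Y)`.
-/

open Pool.Agent.H914 Pool.Agent.H914.VarClass.Obj Pool.Agent.R903 Pool.Agent.T6.H15.BB
open Pool.Agent.T6.H15.AJ

universe u v w

namespace Pool.Agent.Results.MP_a1cc03_ag.ProductsWithDivisors

theorem result {k : Type u} [Field k] {𝒱 : VarClass k} {C : ChowTheory.{u, v} 𝒱}
    (hC : C.Polarized) {W : WeilTheory.{u, v, w} C} (A : AJTheory W) :
    (∀ (X : 𝒱.Obj) (m : ℕ) (x : C.CH X),
      (AlgTrivial W X m x ∧ A.aj X m x = 0) ↔ DoublyTrivial W X m x) ∧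
    (∀ (X : 𝒱.Obj) (m : ℕ), InjOnAlg A X m ↔
      ∀ E : 𝒱.Obj, E.dim = 1 → ∀ (γ : C.CH (E.prod X)) (y : C.CH E),
        HomTrivial W (E.prod X) m γ → HomTrivial W E 1 y → corrAct C γ y = 0) ∧
    [ ∀ (X : 𝒱.Obj) (m : ℕ), InjOnAlg A X m,
      ∀ (X : 𝒱.Obj) (m : ℕ), X.dim + 1 = 2 * m → InjOnAlg A X m,
      ∀ (E X : 𝒱.Obj) (m : ℕ) (y : C.CH E) (z : C.CH X), E.dim = 1 → HomTrivial W E 1 y →
        HomTrivial W X m z → extProd C y z = 0,
      ∀ (Y X : 𝒱.Obj) (n m : ℕ) (x : C.CH Y) (z : C.CH X), AlgTrivial W Y n x →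
        HomTrivial W X m z → extProd C x z = 0,
      ∀ (X : 𝒱.Obj) (n m : ℕ) (x z : C.CH X), AlgTrivial W X n x → HomTrivial W X m z →
        x * z = 0,
      ∀ (X : 𝒱.Obj) (m : ℕ) (D z : C.CH X), X.dim = 2 * m + 1 → AlgTrivial W X 1 D →
        HomTrivial W X m z → D * z = 0,
      ∀ (Y X : 𝒱.Obj) (n c : ℕ) (x : C.CH Y) (γ : C.CH (Y.prod X)), AlgTrivial W Y n x →
        HomTrivial W (Y.prod X) c γ → corrAct C γ x = 0,
      ∀ (Y X : 𝒱.Obj) (n c j : ℕ) (x : C.CH Y) (γ : C.CH (Y.prod X)), AlgTrivial W Y n x →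
        InCH C (Y.prod X) c γ → j + 1 = 2 * n → Kills W γ j → corrAct C γ x = 0 ].TFAE :=
  ⟨kernel_iff A hC, injOnAlg_iff A hC, main_tfae A hC⟩

end Pool.Agent.Results.MP_a1cc03_ag.ProductsWithDivisors
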