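import Pool.Agent.T6.H67.FP.Gen

/-!
# Algebraically trivial cycles and curves with two rational points

Let `𝒱` be a class of smooth proper (e.g. projective) varieties over a field `k` which is closed
under products, with Chow groups `C` (rational coefficients), a Weil cohomology theory `W` and
Abel–Jacobi maps `A` (`AJTheory` in `Pool/Agent/T6/H15/AJ/Defs.lean`); for example `k` is a number
field. Let `T` be any generating class of curves with two points of the same degree. The following
are equivalent:

1. the Abel–Jacobi maps are injective on the algebraically trivial classes in `CH^m(X)`, for all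
   `X` and `m`;
2. the same if `dim X = 2m - 1`;
3. for all `(F, r, s)` in `T` and all `X` and `m`: the homologically trivial families `γ` in
   `CH^m(F × X)` have equal members `γ_* [r] = γ_* [s]`;
4. the same if `dim X = 2m - 1`;
5. for all `(F, r, s)` in `T`, all `X`, `m` and all homologically trivial `z` in `CH^m(X)`:
   `[r] × z = [s] × z` in `CH^(m+1)(F × X)`;
6. the same if `dim X = 2m`.

If `k` is a number field, then the class of all curves with two rational points is generating (not
formalised): a divisor class of degree zero on a curve `E` is, up to a multiple, a rational point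
`a` of the Jacobian of `E`, which contains a smooth curve `F` through `a` and `0` (or is `F`), and
the Poincaré bundle gives the correspondence.
-/

open Pool.Agent.H914 Pool.Agent.H914.VarClass.Obj Pool.Agent.R903 Pool.Agent.T6.H15.BB
open Pool.Agent.T6.H15.AJ Pool.Agent.T6.H67.FP

universe u v w

namespace Pool.Agent.Results.MP_a1cc03_ag.RationalPoints

theorem result {k : Type u} [Field k] {𝒱 : VarClass k} {C : ChowTheory.{u, v} 𝒱}
    (hC : C.Polarized) {W : WeilTheory.{u, v, w} C} (A : AJTheory W) (T : PointPair 𝒱 → Prop)
    (hT : IsGenerating W T) :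
    [ ∀ (X : 𝒱.Obj) (m : ℕ), InjOnAlg A X m,
      ∀ (X : 𝒱.Obj) (m : ℕ), X.dim + 1 = 2 * m → InjOnAlg A X m,
      ∀ t, T t → ∀ (X : 𝒱.Obj) (m : ℕ) (γ : C.CH (t.E.prod X)),
        HomTrivial W (t.E.prod X) m γ → SameMembers C t X γ,
      ∀ t, T t → ∀ (X : 𝒱.Obj) (m : ℕ) (γ : C.CH (t.E.prod X)), X.dim + 1 = 2 * m →
        HomTrivial W (t.E.prod X) m γ → SameMembers C t X γ,
      ∀ t, T t → ∀ (X : 𝒱.Obj) (m : ℕ) (z : C.CH X), HomTrivial W X m z → SameProducts C t X z,
      ∀ t, T t → ∀ (X : 𝒱.Obj) (m : ℕ) (z : C.CH X), X.dim = 2 * m → HomTrivial W X m z →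
        SameProducts C t X z ].TFAE :=
  gen_tfae hC A T hT

end Pool.Agent.Results.MP_a1cc03_ag.RationalPoints
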