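import Pool.Agent.T6.H15.SQ.Main

/-!
# Squares of homologically trivial cycles and the Abel–Jacobi maps

Let `𝒱` be a class of smooth proper (e.g. projective) varieties over a field `k` which is closed
under products, with Chow groups `C` (rational coefficients), a Weil cohomology theory `W` and
Abel–Jacobi maps `A` (`AJTheory` in `Pool/Agent/T6/H15/AJ/Defs.lean`), for example `k` is a number
field.

(1) The following are equivalent (all codimensions are positive): `z w = 0` for all homologically
trivial classes `z` and `w` on the same variety; `z × w = 0`; homologically trivial correspondences
kill the homologically trivial classes; compositions of homologically trivial correspondences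
vanish; `z ^ 2 = 0` for all homologically trivial classes `z`; `z × z = 0`.

(2) If the Abel–Jacobi maps are injective on all homologically trivial classes, then these
statements are true.

(3) If these statements are true (for example if `z ^ 2 = 0` for all homologically trivial `z`), then
the Abel–Jacobi maps are injective on all algebraically trivial classes.
-/

open Pool.Agent.H914 Pool.Agent.R903 Pool.Agent.T6.H15.AJ Pool.Agent.T6.H15.SQ

universe u v w

namespace Pool.Agent.Results.MP_a1cc03_ag.SquaresOfCycles

theorem result {k : Type u} [Field k] {𝒱 : VarClass k} {C : ChowTheory.{u, v} 𝒱}
    (hC : C.Polarized) {W : WeilTheory.{u, v, w} C} (A : AJTheory W) :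
    [ ProductsVanish W, ExternalVanish W, CorrespondencesVanish W, CompositionsVanish W,
      SquaresVanish W, SmashSquaresVanish W ].TFAE ∧
    (AJInjective A → SquaresVanish W) ∧ (SquaresVanish W → AJInjectiveOnAlg A) :=
  ⟨main_tfae hC, fun h => ((main_tfae hC).out 0 4).1 (of_injective A h),
    fun h => injOnAlg_of A hC (((main_tfae hC).out 4 2).1 h)⟩

end Pool.Agent.Results.MP_a1cc03_ag.SquaresOfCycles
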