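import Pool.Agent.T6.H15.ZC.Main

/-!
# Zero-cycles: the Albanese kernel and products of divisors with one-cycles

Let `𝒱` be a class of smooth proper (e.g. projective) varieties over a field `k` which is closed
under products, with Chow groups `C` (rational coefficients), a Weil cohomology theory `W` and
Abel–Jacobi maps `A` (`AJTheory` in `Pool/Agent/T6/H15/AJ/Defs.lean`), for example `k` is a number
field.

(1) If `D z = 0` for all algebraically trivial divisor classes `D` and homologically trivial
one-cycles `z` on the varieties of dimension `d + 1`, then the Albanese map is injective on the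
algebraically trivial zero-cycles on the varieties of dimension `d`.
(2) If the Albanese map of `X` is injective on the algebraically trivial zero-cycles, then `D z = 0`
for all such `D` and `z` on `X`.
(3) Six equivalent forms of the injectivity of the Albanese maps for all `X`.
-/

open Pool.Agent.H914 Pool.Agent.R903 Pool.Agent.T6.H15.AJ Pool.Agent.T6.H15.ZC

universe u v w

namespace Pool.Agent.Results.MP_a1cc03_ag.ZeroCyclesAndCurves

theorem result {k : Type u} [Field k] {𝒱 : VarClass k} {C : ChowTheory.{u, v} 𝒱}
    (hC : C.Polarized) {W : WeilTheory.{u, v, w} C} (A : AJTheory W) :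
    (∀ d : ℕ, (∀ X : 𝒱.Obj, X.dim = d + 1 → DivisorsByCurves W X) →
      ∀ X : 𝒱.Obj, X.dim = d → InjZero A X) ∧
    (∀ X : 𝒱.Obj, InjZero A X → DivisorsByCurves W X) ∧
    [ ∀ X : 𝒱.Obj, InjZero A X, ∀ X : 𝒱.Obj, DivisorsByCurves W X, ZeroProducts W,
      ZeroCorrespondences W, AlbaneseDetects W, SelfCorrespondences W ].TFAE :=
  ⟨fun d h X hX => down A hC d h X hX, fun X h => level A X h, main_tfae A hC⟩

end Pool.Agent.Results.MP_a1cc03_ag.ZeroCyclesAndCurves
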